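import Pool.Agent.H7.HD.Targets7
import Pool.Agent.H65.HD.CB

/-!
# MP_e37c09_lc: module NC, initial segments and cofinality in `n γ`
-/

open Ordinal Cardinal Order Set
open scoped ZFSet

universe u

namespace Pool.Agent.H68.HD.NC

open _root_.HD

theorem nc : T_NC.{u} := by
  intro K lam f n hK hK0 hKl hS hn
  have h1 : ∀ x, x < K.ord → ∃ w, w < K.ord ∧ f x < n w := by
    intro x hx
    obtain ⟨w, hw, hw'⟩ := hn.unb (f x) (hS.lt x hx)
    exact ⟨w, hw, hw'⟩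
  choose! w hw hw' using h1
  have h2 : ∀ z, z < lam → ∃ i, i < K.ord ∧ f i = z := by
    intro z hz
    obtain ⟨x, hx, hx'⟩ := hS.onto z hz
    exact ⟨x, hx, hx'⟩
  choose! i hi hi' using h2
  have hpos : ∀ x < K.ord, (0 : Ordinal.{u}) < K.ord := fun x hx =>
    lt_of_le_of_lt bot_le hx
  classical
  have hC := Pool.Agent.H65.HD.CB.cb K hK hK0
    (fun x _ => max (max (w x) (i (n x))) (max (i x) (if f x < K.ord then f x else 0)))
    (fun x hx y hy => by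
      refine max_lt (max_lt (hw x hx) (hi (n x) (hn.lt x hx))) (max_lt (hi x (hx.trans_le hKl)) ?_)
      split_ifs with h
      · exact h
      · exact hpos x hx)
  refine ⟨_, hC, ?_⟩
  rintro γ ⟨hγ0, hγ2⟩ hγK hlim
  have hg : ∀ x < γ, w x < γ ∧ i (n x) < γ ∧ i x < γ ∧ (f x < K.ord → f x < γ) := by
    intro x hx
    have h3 := hγ2 x hx x hx
    have h4 := max_lt_iff.1 h3
    have h5 := max_lt_iff.1 h4.1
    have h6 := max_lt_iff.1 h4.2
    refine ⟨h5.1, h5.2, h6.1, fun h => ?_⟩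
    have h7 := h6.2
    rwa [if_pos h] at h7
  refine ⟨?_, ?_, ?_⟩
  · rintro y ⟨x, hx, rfl⟩ hyK z hz
    have hzγ : z < γ := hz.trans ((hg x hx).2.2.2 hyK)
    exact ⟨i z, (hg z hzγ).2.2.1, hi' z ((hzγ.trans hγK).trans_le hKl)⟩
  · rintro z ⟨x, hx, rfl⟩
    exact (hw' x (lt_trans hx hγK)).trans (hn.mono _ _ (hg x hx).1 hγK)
  · intro y hy
    obtain ⟨z, hz, hyz⟩ := hn.cont γ hγK hlim y hy
    exact ⟨n z, ⟨i (n z), (hg z hz).2.1, hi' _ (hn.lt z (hz.trans hγK))⟩, hyz⟩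

end Pool.Agent.H68.HD.NC
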