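import Pool.Agent.H7.HD.Targets4

/-!
# MP_e37c09_lc: module ZH, clubs of ordinals in which the HOD-measurable cardinals of large
Mitchell order are stationary in HOD
-/

open Ordinal Cardinal Order Set
open scoped ZFSet

universe u

namespace Pool.Agent.H68.HD.ZH

open _root_.HD

/-- the intersection of two club sets -/
theorem inter2 {ρ : Ordinal.{u}} (hρ : ℵ₀ < ρ.cof) {A B : Set Ordinal.{u}} (hA : Clb ρ A)
    (hB : Clb ρ B) : Clb ρ {b | b ∈ A ∧ b ∈ B} := by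
  have h := Pool.Agent.H76.HD.WE.club_inter hρ (τ := 2)
    ((Ordinal.card_ofNat (n := 2) ▸ Cardinal.ofNat_lt_aleph0).trans hρ)
    (fun i => if i = 0 then A else B) (fun i _ => by
      by_cases hi : i = 0
      · rw [if_pos hi]; exact hA
      · rw [if_neg hi]; exact hB)
  have h2 : {b : Ordinal.{u} | ∀ i : Ordinal.{u}, i < 2 → b ∈ if i = 0 then A else B} =
      {b | b ∈ A ∧ b ∈ B} := by
    ext b
    constructor
    · intro hb
      have h0 := hb 0 two_pos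
      have h1 := hb 1 one_lt_two
      rw [if_pos rfl] at h0
      rw [if_neg one_ne_zero] at h1
      exact ⟨h0, h1⟩
    · rintro ⟨h0, h1⟩ i -
      by_cases hi : i = 0
      · rw [if_pos hi]; exact h0
      · rw [if_neg hi]; exact h1
  rw [← h2]
  exact h

/-- the limit points of a club set are a club set -/
theorem limpts {K : Cardinal.{u}} (hK : K.IsRegular) (h0 : ℵ₀ < K) {C : Set Ordinal.{u}}
    (hC : Clb K.ord C) : Clb K.ord {a | ∀ y < a, ∃ z < a, y < z ∧ z ∈ C} := by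
  constructor
  · intro a ha
    obtain ⟨x, hx, hax, hx'⟩ := Pool.Agent.H33.HD.VD.closure hK h0 (fun _ v => v ∈ C)
      (fun x hx => hC.unb x hx) a ha
    refine ⟨x, hx, hax, fun y hy => ?_⟩
    obtain ⟨w, v, hyw, hwv, hvx, hR'⟩ := hx' y hy
    exact ⟨v, hvx, lt_trans hyw hwv, hR'⟩
  · intro x hx h0x h y hy
    obtain ⟨z, hz, hyz, hz'⟩ := h y hy
    obtain ⟨z', hz1, hz2, hz3⟩ := hz' y hyz
    exact ⟨z', lt_trans hz1 hz, hz2, hz3⟩

theorem key (hZG : T_ZG.{u}) (hDM : T_DM.{u}) {D K : Cardinal.{u}} (hG : GoodN D)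
    (hK : K.IsRegular) (hDK : D < K) {ξ : Ordinal.{u}} (hξ : ξ < D.ord) :
    ∃ C, Clb K.ord C ∧ ∀ α ∈ C, 0 < α → α < K.ord → ∀ d, HOD d →
      Clb α {b | b.toZFSet ∈ d} → ∃ β < α, β.toZFSet ∈ d ∧ ∃ U, MGe β ξ U := by
  have hG' := hG
  obtain ⟨hDr, hDs, hD0, -⟩ := hG
  have hK0 : ℵ₀ < K := hD0.trans hDK
  have hKc : K.ord.cof = K := hK.cof_ord
  obtain ⟨μ, hμD, C1, hC1, hC1'⟩ := HD.All.we D K hG' hK hDK ξ hξ
  have hS : DS {b : Ordinal.{u} | ∃ U, MGe b ξ U} :=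
    DO.sub (R := fun x w => ∃ U, MGe (w 0) x U) ξ
      (DO.s2 (X := fun a b => ∃ U, MGe a b U) hDM 1 0)
  -- a regular cardinal between `μ` and `D`
  set P : Cardinal.{u} := succ (max μ ℵ₀) with hPdef
  have hP : P.IsRegular := Cardinal.isRegular_succ (le_max_right _ _)
  have hμP : μ ≤ P := (le_max_left μ ℵ₀).trans (le_succ _)
  have hPD : P < D := hDs.isSuccLimit.succ_lt (max_lt hμD hD0)
  have hmem : ∀ b < K.ord, b ∈ C1 → Cf P.ord b → ∃ U, MGe b ξ U := by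
    intro b hb hb1 hbP
    have h1 : b.cof = P := Cardinal.ord_injective hbP
    exact hC1' b hb1 hb (by rw [h1]; exact hμP) (by rw [h1]; exact hPD)
  have hst : ∀ C, Clb K.ord C → ∃ b < K.ord, b ∈ C ∧ b ∈ {b : Ordinal.{u} | ∃ U, MGe b ξ U} := by
    intro C hC
    obtain ⟨b, hb, ⟨hbC, hbC1⟩, -, hbP⟩ := HD.All.vc P K.ord hP (by rw [hKc]; exact hPD.trans hDK)
      _ (inter2 (by rw [hKc]; exact hK0) hC hC1)
    exact ⟨b, hb, hbC, hmem b hb hbC1 hbP⟩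
  -- the clubs for the cofinalities below `D`
  have hcl : ∀ i : Ordinal.{u}, ∃ C : Set Ordinal.{u}, Clb K.ord C ∧
      (i.card.IsRegular → i.card < D → ∀ α < K.ord, α ∈ C → Cf i.card.ord α → ∀ d, HOD d →
        Clb α {b | b.toZFSet ∈ d} → ∃ β < α, β.toZFSet ∈ d ∧ ∃ U, MGe β ξ U) := by
    intro i
    by_cases hi : i.card.IsRegular ∧ i.card < D
    · have h := hZG D i.card K hG' hi.1 hi.2 hK hDK _ hS hst
      unfold Pos at h
      push Not at h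
      obtain ⟨C, hC, h⟩ := h
      refine ⟨C, hC, fun _ _ α hα hαC hcf d hd hdc => ?_⟩
      by_contra hno
      push Not at hno
      refine h α hα hαC ⟨d, hd, hdc, fun b hb hbd => ?_⟩ hcf
      rintro ⟨U, hU⟩
      exact hno b hb hbd U hU
    · refine ⟨univ, ⟨fun a ha => ?_, fun _ _ _ _ => mem_univ _⟩,
        fun h1 h2 => absurd ⟨h1, h2⟩ hi⟩
      exact ⟨a + 1, (Cardinal.isSuccLimit_ord hK0.le).add_one_lt ha, _root_.lt_add_one a,
        mem_univ _⟩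
  choose C hCc hC' using hcl
  refine ⟨_, inter2 (by rw [hKc]; exact hK0)
    (Pool.Agent.H76.HD.WE.club_inter (by rw [hKc]; exact hK0) (τ := D.ord)
      (by rw [hKc, Cardinal.card_ord]; exact hDK) C (fun i _ => hCc i))
    (limpts hK hK0 hC1), ?_⟩
  rintro α ⟨hαC, hαl⟩ hα0 hαK d hd hdc
  have hlim : IsSuccLimit α := by
    refine ⟨?_, ?_⟩
    · rw [isMin_iff_eq_bot, Ordinal.bot_eq_zero]
      exact hα0.ne'
    · intro y hy
      obtain ⟨z, hz1, hz2, -⟩ := hαl y hy.1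
      exact hy.2 hz2 hz1
  have hcofα : ℵ₀ ≤ α.cof := Ordinal.aleph0_le_cof.2 hlim
  have hreg : α.cof.IsRegular := ⟨hcofα, by rw [Ordinal.cof_ord_cof]⟩
  by_cases hN : α.cof < D
  · have h1 : α.cof.ord.card = α.cof := Cardinal.card_ord _
    refine hC' α.cof.ord (by rw [h1]; exact hreg) (by rw [h1]; exact hN) α hαK
      (hαC _ (Cardinal.ord_lt_ord.2 hN)) ?_ d hd hdc
    rw [h1]
    rfl
  · rw [not_lt] at hN
    have hC1α : Clb α C1 := ⟨fun a ha => hαl a ha, fun x hx h0x h =>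
      hC1.cls x (hx.trans hαK) h0x h⟩
    obtain ⟨b, hb, ⟨hbd, hbC1⟩, -, hbP⟩ := HD.All.vc P α hP (hPD.trans_le hN)
      _ (inter2 (hD0.trans_le hN) hdc hC1α)
    exact ⟨b, hb, hbd, hmem b (hb.trans hαK) hbC1 hbP⟩

theorem X (hZG : T_ZG.{u}) (hDM : T_DM.{u}) : T_ZH.{u} := by
  intro D hD
  obtain ⟨hDr, hDs, hD0, hDg⟩ := hD
  choose! G hG1 hG2 hG3 using hDg
  have hE := HD.All.ve D hDr hD0 (fun y => (G y).ord) (fun y hy => Cardinal.ord_lt_ord.2 (hG1 y hy))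
  refine ⟨{x | x < D.ord ∧ 0 < x ∧ ∀ y < x, (G y).ord < x}, fun x hx => hx.1, ⟨fun a ha => ?_,
    fun x hx h0 h => ⟨hx, hE.cls x hx h0 fun y hy => ?_⟩⟩, ?_⟩
  · obtain ⟨b, hb, hab, hbE⟩ := hE.unb a ha
    exact ⟨b, hb, hab, hb, hbE⟩
  · obtain ⟨z, hz, hyz, hzE⟩ := h y hy
    exact ⟨z, hz, hyz, hzE.2⟩
  · rintro K hK ⟨δ₀, ⟨hδD, hδ0, hδG⟩, hδK⟩
    have hK0 : ℵ₀ < K := by
      have h1 := hG3 0 (hδ0.trans hδD)
      exact h1.2.2.1.trans (Cardinal.ord_lt_ord.1 ((hδG 0 hδ0).trans hδK))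
    have hKc : K.ord.cof = K := hK.cof_ord
    obtain ⟨C0, hC0, hC0'⟩ := HD.All.kd (G 0) K (hG3 0 (hδ0.trans hδD)) hK
      (Cardinal.ord_lt_ord.1 ((hδG 0 hδ0).trans hδK))
    have hcl : ∀ ξ : Ordinal.{u}, ∃ C : Set Ordinal.{u}, Clb K.ord C ∧
        (ξ < D.ord → G ξ < K → ∀ α ∈ C, 0 < α → α < K.ord → ∀ d, HOD d →
          Clb α {b | b.toZFSet ∈ d} → ∃ β < α, β.toZFSet ∈ d ∧ ∃ U, MGe β ξ U) := by
      intro ξ
      by_cases h : ξ < D.ord ∧ G ξ < K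
      · obtain ⟨C, hC, hC'⟩ := key hZG hDM (hG3 ξ h.1) hK h.2 (hG2 ξ h.1)
        exact ⟨C, hC, fun _ _ => hC'⟩
      · refine ⟨univ, ⟨fun a ha => ?_, fun _ _ _ _ => mem_univ _⟩,
          fun h1 h2 => absurd ⟨h1, h2⟩ h⟩
        exact ⟨a + 1, (Cardinal.isSuccLimit_ord hK0.le).add_one_lt ha, _root_.lt_add_one a,
          mem_univ _⟩
    choose C hC hC' using hcl
    refine ⟨_, inter2 (by rw [hKc]; exact hK0) hC0
      (Pool.Agent.H33.HD.VD.diag hK hK0 C fun a _ => hC a), ?_⟩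
    rintro α ⟨hα0, hαp, hαC⟩ hαK
    refine ⟨hC0' α hα0 hαK, ?_⟩
    rintro δ₁ ⟨hδ₁D, hδ₁0, hδ₁G⟩ hδ₁α ξ hξ d hd hdc
    exact hC' ξ (hξ.trans hδ₁D)
      (Cardinal.ord_lt_ord.1 (((hδ₁G ξ hξ).trans_le hδ₁α).trans hαK)) α
      (hαC ξ (hξ.trans_le hδ₁α)) hαp hαK d hd hdc

end Pool.Agent.H68.HD.ZH
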